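import Pool.Agent.Helper82.CKM.Defs

/-!
The sums of squares (Lasserre) relaxations of the natural linear program for capacitated k-median.
-/

open MvPolynomial

namespace Pool.Agent.Helper82.SOS

open Pool.Agent.Helper82.CKM

/-- The variables of the natural linear program: `y_i = Sum.inl i` (the facility `i` is open) and
`x_ij = Sum.inr (i, j)` (the client `j` is assigned to the facility `i`). -/
abbrev Var (I : Inst) : Type := I.F ⊕ (I.F × I.D)

/-- A pseudo-expectation of degree `2 t` for the natural linear program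
`∑_i x_ij = 1`, `x_ij ≤ y_i`, `∑_j x_ij ≤ U_i y_i`, `∑_i y_i ≤ k`, with 0/1 variables: a feasible
solution of level `t` of the Lasserre hierarchy. -/
structure PseudoExp (I : Inst) (k t : ℕ) where
  /-- the linear functional -/
  E : MvPolynomial (Var I) ℝ →ₗ[ℝ] ℝ
  one : E 1 = 1
  bool : ∀ (v : Var I) (p : MvPolynomial (Var I) ℝ), p.totalDegree + 2 ≤ 2 * t →
    E (p * (X v ^ 2 - X v)) = 0
  sq : ∀ p : MvPolynomial (Var I) ℝ, 2 * p.totalDegree ≤ 2 * t → 0 ≤ E (p ^ 2)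
  assign : ∀ (j : I.D) (p : MvPolynomial (Var I) ℝ), p.totalDegree + 1 ≤ 2 * t →
    E (p * (∑ i, X (Sum.inr (i, j)) - 1)) = 0
  opened : ∀ (i : I.F) (j : I.D) (p : MvPolynomial (Var I) ℝ), 2 * p.totalDegree + 1 ≤ 2 * t →
    0 ≤ E (p ^ 2 * (X (Sum.inl i) - X (Sum.inr (i, j))))
  capacity : ∀ (i : I.F) (p : MvPolynomial (Var I) ℝ), 2 * p.totalDegree + 1 ≤ 2 * t →
    0 ≤ E (p ^ 2 * (C (I.U i : ℝ) * X (Sum.inl i) - ∑ j, X (Sum.inr (i, j))))
  cardinality : ∀ p : MvPolynomial (Var I) ℝ, 2 * p.totalDegree + 1 ≤ 2 * t →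
    0 ≤ E (p ^ 2 * (C (k : ℝ) - ∑ i, X (Sum.inl i)))

/-- The value of a pseudo-expectation: `∑_ij d(j, i) E(x_ij)`. -/
noncomputable def PseudoExp.value {I : Inst} {k t : ℕ} (e : PseudoExp I k t) : ℝ :=
  ∑ i, ∑ j, I.d (Sum.inr j) (Sum.inl i) * e.E (X (Sum.inr (i, j)))

end Pool.Agent.Helper82.SOS
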