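import Pool.Agent.Helper82.SOS.Integral

namespace Pool.Agent.Helper82.SOS.GapMain

open Pool.Agent.Helper82.CKM Pool.Agent.Helper82.SOS

/-- The Lasserre (sums of squares) hierarchy over the natural linear program for capacitated
`k`-median, uniform capacities.

1. It is a relaxation: every exact solution gives a pseudo-expectation of the same value.
2. For all `t, h, w ≥ 1`, all `0 ≤ ε < 1 / (6 t - 2)` and all `ρ` there is an instance, a metric
   space with `h (8 t - 2)` facilities of capacity `2 t w`, which has an exact solution with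
   `k = h (6 t - 1)` facilities, such that the level `t` relaxation (degree `2 t`) has a feasible
   solution of value `|D|`, but every solution, even if
   * a facility `i` may be opened several times (`m i` times),
   * there are up to (but not including) `(1 + 1 / (6 t - 1)) k` openings,
   * the capacities are violated by the factor `1 + ε`,
   * and the clients are split arbitrarily between the facilities (`x i j`),
   costs more than `ρ |D|`. -/
theorem main :
    (∀ (I : Inst) (k t : ℕ) (s : Sol I), s.size ≤ k →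
      ∃ e : PseudoExp I k t, e.value = s.cost) ∧
    (∀ (t h w : ℕ) (ρ ε : ℝ), 1 ≤ t → 1 ≤ h → 1 ≤ w → 0 ≤ ε → ε < 1 / (6 * t - 2) → ∃ I : Inst,
      (∀ x y, x ≠ y → 0 < I.d x y) ∧ (∀ i, I.U i = 2 * t * w) ∧
      Fintype.card I.F = h * (8 * t - 2) ∧
      (∃ s : Sol I, s.size = h * (6 * t - 1)) ∧
      (∃ e : PseudoExp I (h * (6 * t - 1)) t, e.value = Fintype.card I.D) ∧
      ∀ (m : I.F → ℕ) (x : I.F → I.D → ℝ), (∀ i j, 0 ≤ x i j) → (∀ j, ∑ i, x i j = 1) →
        (∀ i, ∑ j, x i j ≤ (1 + ε) * (m i * (2 * t * w))) →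
        ((∑ i, m i : ℕ) : ℝ) < (1 + 1 / (6 * t - 1)) * (h * (6 * t - 1)) →
        ρ * Fintype.card I.D < ∑ i, ∑ j, I.d (Sum.inr j) (Sum.inl i) * x i j) := by
  refine ⟨fun I k t s hs => sound I s k t hs, ?_⟩
  intro t h w ρ ε ht hh hw hε0 hε
  have htr : (1 : ℝ) ≤ t := by exact_mod_cast ht
  have hhr : (1 : ℝ) ≤ h := by exact_mod_cast hh
  have hwr : (1 : ℝ) ≤ w := by exact_mod_cast hw
  have h6 : (0 : ℝ) < 6 * t - 1 := by linarith
  have h62 : (0 : ℝ) < 6 * t - 2 := by linarith
  have hε1 : 0 < 1 - 2 * ε * (3 * t - 1) := by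
    rw [lt_div_iff₀ h62] at hε
    linarith
  set c : ℝ := (1 - 2 * ε * (3 * t - 1)) * (t * w) with hc
  have hc0 : 0 < c := by
    rw [hc]
    positivity
  set n : ℝ := (Fintype.card (Cli (Fin (2 * h)) (Fin (3 * t - 1)) (Fin t) (Fin w)) : ℝ) with hn
  have hn0 : 0 ≤ n := Nat.cast_nonneg _
  set L : ℝ := |ρ| * n / c + 1 with hL
  have hL1 : 1 ≤ L := by
    have : 0 ≤ |ρ| * n / c := by positivity
    linarith
  have hlt : ρ * n < L * c := by
    have h1 : L * c = |ρ| * n + c := by
      rw [hL]
      field_simp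
    rw [h1]
    have h2 := mul_le_mul_of_nonneg_right (le_abs_self ρ) hn0
    linarith
  have hsub : ((3 * t - 1 : ℕ) : ℝ) = 3 * t - 1 := by
    rw [Nat.cast_sub (by omega)]
    push_cast
    ring
  have hsub6 : ((6 * t - 1 : ℕ) : ℝ) = 6 * t - 1 := by
    rw [Nat.cast_sub (by omega)]
    push_cast
    ring
  refine ⟨inst (Fin (2 * h)) (Fin (3 * t - 1)) (Fin t) (Fin w) L hL1, ?_, ?_, ?_, ?_, ?_, ?_⟩
  · intro x y hxy
    exact dist_pos L hL1 x y hxy
  · intro i
    change 2 * (Fintype.card (Fin t) * Fintype.card (Fin w)) = 2 * t * w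
    rw [Fintype.card_fin, Fintype.card_fin]
    ring
  · change Fintype.card (Fin (2 * h) × (Fin (3 * t - 1) ⊕ Fin t)) = _
    rw [Fintype.card_prod, Fintype.card_sum, Fintype.card_fin, Fintype.card_fin,
      Fintype.card_fin, mul_comm 2 h, mul_assoc]
    congr 1
    omega
  · refine exists_sol L hL1 (h * (6 * t - 1)) ?_ ?_
    · rw [card_cli]
      simp only [Fintype.card_fin]
      have : 2 * (3 * t - 1) + 1 = 6 * t - 1 := by omega
      rw [this]
      ring
    · change _ ≤ Fintype.card (Fin (2 * h) × (Fin (3 * t - 1) ⊕ Fin t))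
      rw [Fintype.card_prod, Fintype.card_sum, Fintype.card_fin, Fintype.card_fin,
        Fintype.card_fin, mul_comm 2 h, mul_assoc]
      refine Nat.mul_le_mul_left _ ?_
      omega
  · refine exists_pseudo L hL1 (2 * t - 1 / 2) (h * (6 * t - 1)) t ht ?_ ?_ ?_ ?_ ?_
    · rw [Fintype.card_fin]
      omega
    · linarith
    · rw [Fintype.card_fin, Fintype.card_fin, hsub]
      ring
    · rw [Fintype.card_fin]
    · rw [Fintype.card_fin, Fintype.card_fin]
      push_cast
      rw [hsub6]
      ring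
  · intro m x hx0 hx1 hcap hm
    have hfar := far_mass (γ := Fin (2 * h)) (α := Fin (3 * t - 1)) (β := Fin t)
      (ω := Fin w) ε hε0 m x hx0 hx1 ?_ ?_
    · obtain ⟨g, hg⟩ := hfar
      rw [Fintype.card_fin, Fintype.card_fin, Fintype.card_fin, hsub, ← hc] at hg
      exact lt_of_lt_of_le hlt ((mul_le_mul_of_nonneg_left hg (by linarith)).trans
        (cost_far L hL1 x hx0 g))
    · intro i
      rw [Fintype.card_fin, Fintype.card_fin, ← mul_assoc (2 : ℝ) (t : ℝ) (w : ℝ)]
      exact hcap i
    · rw [Fintype.card_fin, Fintype.card_fin]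
      have h1 : (1 + 1 / (6 * t - 1)) * (h * (6 * t - 1)) = (6 * t * h : ℝ) := by
        field_simp
        ring
      rw [h1] at hm
      have h3 : 2 * h * (3 * t - 1 + 1) = 6 * t * h := by
        have : 3 * t - 1 + 1 = 3 * t := by omega
        rw [this]
        ring
      rw [h3]
      exact_mod_cast hm

end Pool.Agent.Helper82.SOS.GapMain
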