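import Mathlib

/-!
The symmetric moment sequence `(s)_r / (N)_r` (falling factorials): its moment matrix on sets of at
most `t` elements is a Gram matrix if `2 t - 1 ≤ s`, `t - 1 ≤ N - s`.
-/

open Finset

namespace Pool.Agent.Helper82.SOS

/-- falling factorial `x (x - 1) ... (x - n + 1)` -/
noncomputable def ff (x : ℝ) (n : ℕ) : ℝ := ∏ i ∈ range n, (x - i)

theorem ff_zero (x : ℝ) : ff x 0 = 1 := by simp [ff]

theorem ff_succ (x : ℝ) (n : ℕ) : ff x (n + 1) = ff x n * (x - n) := by
  simp [ff, prod_range_succ]

theorem ff_add (x : ℝ) (m n : ℕ) : ff x (m + n) = ff x m * ff (x - m) n := by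
  induction n with
  | zero => simp [ff_zero]
  | succ n ih =>
    rw [← add_assoc, ff_succ, ih, ff_succ]
    push_cast
    ring

theorem ff_nonneg {x : ℝ} {n : ℕ} (h : (n : ℝ) ≤ x + 1) : 0 ≤ ff x n := by
  unfold ff
  refine prod_nonneg fun i hi => ?_
  have h1 : (i : ℝ) + 1 ≤ n := by exact_mod_cast mem_range.1 hi
  linarith

theorem ff_pos {x : ℝ} {n : ℕ} (h : (n : ℝ) < x + 1) : 0 < ff x n := by
  unfold ff
  refine prod_pos fun i hi => ?_
  have h1 : (i : ℝ) + 1 ≤ n := by exact_mod_cast mem_range.1 hi
  linarith

variable {α : Type} [DecidableEq α]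

/-- Vandermonde's identity over the subsets of a set -/
theorem vandermonde (x y : ℝ) (M : Finset α) :
    ∑ K ∈ M.powerset, ff x (M.card - K.card) * ff y K.card = ff (x + y) M.card := by
  induction M using Finset.induction_on with
  | empty => simp [ff_zero]
  | insert a M ha ih =>
    rw [sum_powerset_insert ha, card_insert_of_notMem ha, ff_succ, ← ih, ← sum_add_distrib,
      sum_mul]
    refine sum_congr rfl fun K hK => ?_
    have hKM : K ⊆ M := mem_powerset.1 hK
    have haK : a ∉ K := fun h => ha (hKM h)
    have hc : K.card ≤ M.card := card_le_card hKM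
    rw [card_insert_of_notMem haK, Nat.succ_sub hc, ff_succ, Nat.add_sub_add_right, ff_succ,
      Nat.cast_sub hc]
    ring

variable [Fintype α]

/-- the moments -/
noncomputable def mu (N s : ℝ) (r : ℕ) : ℝ := ff s r / ff N r

theorem mu_succ {N s : ℝ} {r : ℕ} (h : (r : ℝ) < N) :
    (N - r) * mu N s (r + 1) = (s - r) * mu N s r := by
  unfold mu
  rw [ff_succ, ff_succ]
  have h1 : ff N r ≠ 0 := (ff_pos (by linarith)).ne'
  have h2 : N - r ≠ 0 := by
    intro h3
    linarith
  field_simp

/-- the case of two sets of size `t` -/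
theorem gram_top (s : ℝ) (t : ℕ) (ht : 2 * t ≤ Fintype.card α) (I J : Finset α)
    (hI : I.card = t) (hJ : J.card = t) :
    mu (Fintype.card α) s (I ∪ J).card =
      ∑ K : Finset α, (ff s (2 * t - K.card) * ff (Fintype.card α - s) K.card /
        ff (Fintype.card α) (2 * t)) * ((if K ⊆ I then 1 else 0) * (if K ⊆ J then 1 else 0)) := by
  set N : ℝ := (Fintype.card α : ℝ) with hN
  set i := (I ∩ J).card with hi
  have hcard : (I ∪ J).card = 2 * t - i := by
    have := card_union_add_card_inter I J
    omega
  have hit : i ≤ t := by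
    rw [← hI]
    exact card_le_card inter_subset_left
  have h1 : ∑ K : Finset α, (ff s (2 * t - K.card) * ff (N - s) K.card /
        ff N (2 * t)) * ((if K ⊆ I then 1 else 0) * (if K ⊆ J then 1 else 0)) =
      ∑ K ∈ (I ∩ J).powerset, ff s (2 * t - K.card) * ff (N - s) K.card / ff N (2 * t) := by
    rw [← sum_subset (subset_univ (I ∩ J).powerset)]
    · refine sum_congr rfl fun K hK => ?_
      rw [mem_powerset, subset_inter_iff] at hK
      rw [if_pos hK.1, if_pos hK.2]
      ring
    · intro K _ hK
      rw [mem_powerset, subset_inter_iff, not_and_or] at hK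
      rcases hK with hK | hK
      · rw [if_neg hK]; ring
      · rw [if_neg hK]; ring
  rw [h1, ← sum_div, hcard]
  have h2 : ∑ K ∈ (I ∩ J).powerset, ff s (2 * t - K.card) * ff (N - s) K.card =
      ff s (2 * t - i) * ff (N - (2 * t - i : ℕ)) i := by
    have h3 := vandermonde (s - (2 * t - i : ℕ)) (N - s) (I ∩ J)
    rw [← hi] at h3
    have h4 : s - ((2 * t - i : ℕ) : ℝ) + (N - s) = N - ((2 * t - i : ℕ) : ℝ) := by ring
    rw [h4] at h3
    rw [← h3, mul_sum]
    refine sum_congr rfl fun K hK => ?_
    have hK' : K.card ≤ i := card_le_card (mem_powerset.1 hK)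
    have h5 : 2 * t - K.card = (2 * t - i) + (i - K.card) := by omega
    rw [h5, ff_add]
    ring
  rw [h2]
  have h6 : ff N (2 * t) = ff N (2 * t - i) * ff (N - (2 * t - i : ℕ)) i := by
    rw [← ff_add]
    congr 1
    omega
  have h7 : ff N (2 * t) ≠ 0 := by
    refine (ff_pos ?_).ne'
    have : ((2 * t : ℕ) : ℝ) ≤ N := by
      rw [hN]
      exact_mod_cast ht
    linarith
  rw [h6] at h7 ⊢
  have h8 := left_ne_zero_of_mul h7
  have h9 := right_ne_zero_of_mul h7
  unfold mu
  field_simp

/-- the lifting relation -/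
theorem mu_lift (s : ℝ) (I J : Finset α) (h : (I ∪ J).card < Fintype.card α) :
    ∑ v ∈ Iᶜ, mu (Fintype.card α) s (insert v I ∪ J).card =
      (s - I.card) * mu (Fintype.card α) s (I ∪ J).card := by
  have hsplit : Iᶜ = (J \ I) ∪ (I ∪ J)ᶜ := by
    ext v
    simp only [mem_compl, mem_union, mem_sdiff]
    tauto
  have hdisj : Disjoint (J \ I) (I ∪ J)ᶜ := by
    rw [disjoint_left]
    intro v hv
    simp only [mem_compl, mem_union, mem_sdiff] at hv ⊢
    tauto
  rw [hsplit, sum_union hdisj]
  have h1 : ∑ v ∈ J \ I, mu (Fintype.card α) s (insert v I ∪ J).card =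
      ((J \ I).card : ℝ) * mu (Fintype.card α) s (I ∪ J).card := by
    rw [← nsmul_eq_mul, ← sum_const]
    refine sum_congr rfl fun v hv => ?_
    rw [mem_sdiff] at hv
    congr 2
    ext x
    simp only [mem_union, mem_insert]
    constructor
    · rintro ((rfl | h) | h)
      · exact Or.inr hv.1
      · exact Or.inl h
      · exact Or.inr h
    · rintro (h | h)
      · exact Or.inl (Or.inr h)
      · exact Or.inr h
  have h2 : ∑ v ∈ (I ∪ J)ᶜ, mu (Fintype.card α) s (insert v I ∪ J).card =
      ((I ∪ J)ᶜ.card : ℝ) * mu (Fintype.card α) s ((I ∪ J).card + 1) := by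
    rw [← nsmul_eq_mul, ← sum_const]
    refine sum_congr rfl fun v hv => ?_
    rw [mem_compl] at hv
    congr 1
    rw [insert_union, card_insert_of_notMem hv]
  have h3 : ((I ∪ J)ᶜ.card : ℝ) = Fintype.card α - (I ∪ J).card := by
    rw [card_compl, Nat.cast_sub h.le]
  have h4 : ((J \ I).card : ℝ) = (I ∪ J).card - I.card := by
    have h5 : (J \ I).card + I.card = (I ∪ J).card := by
      rw [union_comm, card_sdiff_add_card]
    have h6 : (((J \ I).card + I.card : ℕ) : ℝ) = (I ∪ J).card := by rw [h5]
    push_cast at h6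
    linarith
  rw [h1, h2, h3, mu_succ (by exact_mod_cast h), h4]
  ring

/-- the moment matrix on sets of at most `t` elements is a Gram matrix -/
theorem gram (s : ℝ) (t : ℕ) (hN : 2 * t ≤ Fintype.card α) (hs : (2 * t : ℝ) ≤ s + 1)
    (hNs : (t : ℝ) ≤ Fintype.card α - s + 1) (ht : 1 ≤ t) :
    ∃ w : Finset α → Finset α → ℝ, ∀ I J : Finset α, I.card ≤ t → J.card ≤ t →
      mu (Fintype.card α) s (I ∪ J).card = ∑ K, w I K * w J K := by
  have key : ∀ d ≤ t, ∃ w : Finset α → Finset α → ℝ, ∀ I J : Finset α,
      t - d ≤ I.card → I.card ≤ t → t - d ≤ J.card → J.card ≤ t →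
      mu (Fintype.card α) s (I ∪ J).card = ∑ K, w I K * w J K := by
    intro d
    induction d with
    | zero =>
      intro _
      refine ⟨fun I K => Real.sqrt (ff s (2 * t - K.card) * ff (Fintype.card α - s) K.card /
        ff (Fintype.card α) (2 * t)) * (if K ⊆ I then 1 else 0), fun I J h1 h2 h3 h4 => ?_⟩
      rw [gram_top s t hN I J (by omega) (by omega)]
      refine sum_congr rfl fun K _ => ?_
      by_cases hK : K ⊆ I
      swap
      · simp [hK]
      have hKt : K.card ≤ t := (card_le_card hK).trans h2
      have hc : 0 ≤ ff s (2 * t - K.card) * ff (Fintype.card α - s) K.card /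
          ff (Fintype.card α) (2 * t) := by
        refine div_nonneg (mul_nonneg (ff_nonneg ?_) (ff_nonneg ?_)) (ff_nonneg ?_)
        · have : ((2 * t - K.card : ℕ) : ℝ) ≤ (2 * t : ℕ) := by
            exact_mod_cast Nat.sub_le _ _
          push_cast at this
          linarith
        · have : (K.card : ℝ) ≤ t := by exact_mod_cast hKt
          linarith
        · have : ((2 * t : ℕ) : ℝ) ≤ Fintype.card α := by exact_mod_cast hN
          linarith
      have h5 := Real.mul_self_sqrt hc
      calc _ = (Real.sqrt (ff s (2 * t - K.card) * ff (Fintype.card α - s) K.card /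
            ff (Fintype.card α) (2 * t)) * Real.sqrt (ff s (2 * t - K.card) *
            ff (Fintype.card α - s) K.card / ff (Fintype.card α) (2 * t))) *
            ((if K ⊆ I then 1 else 0) * (if K ⊆ J then 1 else 0)) := by rw [h5]
        _ = _ := by ring
    | succ d ih =>
      intro hd
      obtain ⟨w, hw⟩ := ih (by omega)
      set e := t - (d + 1) with he
      have hes : (0 : ℝ) < s - e := by
        have h1 : (e : ℝ) + 1 ≤ t := by
          have : e + 1 ≤ t := by omega
          exact_mod_cast this
        have h2 : (1 : ℝ) ≤ t := by exact_mod_cast ht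
        linarith
      let w' : Finset α → Finset α → ℝ := fun I K =>
        if I.card = e then (s - e)⁻¹ * ∑ v ∈ Iᶜ, w (insert v I) K else w I K
      -- the lifting in the first argument
      have hlift : ∀ (I : Finset α) (J : Finset α) (z : Finset α → ℝ), I.card = e → J.card ≤ t →
          (∀ I' : Finset α, I'.card = e + 1 →
            mu (Fintype.card α) s (I' ∪ J).card = ∑ K, w I' K * z K) →
          mu (Fintype.card α) s (I ∪ J).card = ∑ K, w' I K * z K := by
        intro I J z hI hJ hz
        have hcard : (I ∪ J).card < Fintype.card α := by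
          have := card_union_le I J
          omega
        have h1 := mu_lift s I J hcard
        rw [hI] at h1
        have h2 : ∑ v ∈ Iᶜ, mu (Fintype.card α) s (insert v I ∪ J).card =
            ∑ K, (∑ v ∈ Iᶜ, w (insert v I) K) * z K := by
          simp_rw [sum_mul]
          rw [sum_comm]
          refine sum_congr rfl fun v hv => ?_
          exact hz _ (by rw [card_insert_of_notMem (mem_compl.1 hv), hI])
        rw [h2] at h1
        have h3 : ∀ K, w' I K * z K = (s - e)⁻¹ * ((∑ v ∈ Iᶜ, w (insert v I) K) * z K) := by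
          intro K
          simp only [w']
          rw [if_pos hI]
          ring
        simp_rw [h3]
        rw [← mul_sum, h1, ← mul_assoc, inv_mul_cancel₀ hes.ne', one_mul]
      have hw'eq : ∀ I : Finset α, I.card ≠ e → w' I = w I := by
        intro I hI
        funext K
        simp only [w']
        rw [if_neg hI]
      -- first the second argument in the old range
      have h2 : ∀ I J : Finset α, e ≤ I.card → I.card ≤ t → e + 1 ≤ J.card → J.card ≤ t →
          mu (Fintype.card α) s (I ∪ J).card = ∑ K, w' I K * w J K := by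
        intro I J hI1 hI2 hJ1 hJ2
        by_cases hI : I.card = e
        · exact hlift I J (w J) hI hJ2 fun I' hI' =>
            hw I' J (by omega) (by omega) (by omega) hJ2
        · rw [hw'eq I hI]
          exact hw I J (by omega) hI2 (by omega) hJ2
      refine ⟨w', fun I J hI1 hI2 hJ1 hJ2 => ?_⟩
      by_cases hJ : J.card = e
      · have h3 := hlift J I (w' I) hJ hI2 fun J' hJ' => by
          rw [union_comm, h2 I J' hI1 hI2 (by omega) (by omega)]
          exact sum_congr rfl fun K _ => mul_comm _ _
        rw [union_comm, h3]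
        exact sum_congr rfl fun K _ => mul_comm _ _
      · rw [hw'eq J hJ]
        exact h2 I J hI1 hI2 (by omega) hJ2
  obtain ⟨w, hw⟩ := key t le_rfl
  exact ⟨w, fun I J hI hJ => hw I J (by omega) hI (by omega) hJ⟩

end Pool.Agent.Helper82.SOS
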