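import Pool.Agent.Helper82.SOS.Gram

/-!
The product of the signed measures: functions of low degree, positivity and the relation.
-/

open Finset

namespace Pool.Agent.Helper82.SOS

set_option linter.unusedSectionVars false

section nu

variable {α : Type} [DecidableEq α] [Fintype α]

/-- a signed measure on the subsets with prescribed moments -/
theorem exists_nu (f : Finset α → ℝ) :
    ∃ ν : Finset α → ℝ, ∀ I, ∑ A, (if I ⊆ A then ν A else 0) = f I := by
  let T : (Finset α → ℝ) →ₗ[ℝ] (Finset α → ℝ) :=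
    { toFun := fun ν I => ∑ A, (if I ⊆ A then ν A else 0)
      map_add' := by
        intro x y
        funext I
        simp only [Pi.add_apply]
        rw [← sum_add_distrib]
        refine sum_congr rfl fun A _ => ?_
        split_ifs <;> simp
      map_smul' := by
        intro c x
        funext I
        simp only [Pi.smul_apply, smul_eq_mul, RingHom.id_apply]
        rw [mul_sum]
        refine sum_congr rfl fun A _ => ?_
        split_ifs <;> simp }
  have hinj : Function.Injective T := by
    rw [← LinearMap.ker_eq_bot, LinearMap.ker_eq_bot']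
    intro ν hν
    by_contra hne
    obtain ⟨A0, hA0⟩ : ∃ A, ν A ≠ 0 := by
      by_contra h
      push Not at h
      exact hne (funext h)
    obtain ⟨A, hA, hmax⟩ := (univ.filter fun A => ν A ≠ 0).exists_max_image card
      ⟨A0, by simpa using hA0⟩
    rw [mem_filter] at hA
    apply hA.2
    have h1 : ∑ B, (if A ⊆ B then ν B else 0) = 0 := congrFun hν A
    rw [sum_eq_single A] at h1
    · rwa [if_pos Subset.rfl] at h1
    · intro B _ hB
      split_ifs with h2
      · by_contra h3
        have h4 := hmax B (by simpa using h3)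
        exact hB (eq_of_subset_of_card_le h2 h4).symm
      · rfl
    · intro h
      exact absurd (mem_univ A) h
  obtain ⟨ν, hν⟩ := LinearMap.injective_iff_surjective.1 hinj f
  exact ⟨ν, fun I => congrFun hν I⟩

end nu

variable {α γ : Type} [DecidableEq α] [Fintype α] [DecidableEq γ] [Fintype γ]

/-- the section of a set of pairs -/
def sec (I : Finset (γ × α)) (g : γ) : Finset α := univ.filter fun a => (g, a) ∈ I

omit [DecidableEq γ] [Fintype γ] in
theorem mem_sec (I : Finset (γ × α)) (g : γ) (a : α) [DecidableEq γ] :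
    a ∈ sec I g ↔ (g, a) ∈ I := by simp [sec]

theorem sec_union (I J : Finset (γ × α)) (g : γ) : sec (I ∪ J) g = sec I g ∪ sec J g := by
  ext a
  simp [sec]

theorem card_sec_le (I : Finset (γ × α)) (g : γ) : (sec I g).card ≤ I.card := by
  refine card_le_card_of_injOn (fun a => (g, a)) ?_ ?_
  · intro a ha
    exact (mem_sec I g a).1 ha
  · intro a _ b _ h
    exact (Prod.ext_iff.1 h).2

/-- the monomial of `I` -/
def chi (I : Finset (γ × α)) (A : γ → Finset α) : ℝ := if ∀ g, sec I g ⊆ A g then 1 else 0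

theorem chi_mul (I J : Finset (γ × α)) :
    (chi I * chi J : (γ → Finset α) → ℝ) = chi (I ∪ J) := by
  funext A
  simp only [Pi.mul_apply, chi]
  by_cases h3 : ∀ g, sec (I ∪ J) g ⊆ A g
  · have h1 : ∀ g, sec I g ⊆ A g := fun g => by
      have h4 := h3 g
      rw [sec_union] at h4
      exact subset_union_left.trans h4
    have h2 : ∀ g, sec J g ⊆ A g := fun g => by
      have h4 := h3 g
      rw [sec_union] at h4
      exact subset_union_right.trans h4
    rw [if_pos h1, if_pos h2, if_pos h3, one_mul]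
  · rw [if_neg h3]
    by_cases h1 : ∀ g, sec I g ⊆ A g
    · by_cases h2 : ∀ g, sec J g ⊆ A g
      · exfalso
        apply h3
        intro g
        rw [sec_union]
        exact union_subset (h1 g) (h2 g)
      · rw [if_neg h2, mul_zero]
    · rw [if_neg h1, zero_mul]

theorem chi_empty : (chi (∅ : Finset (γ × α))) = (1 : (γ → Finset α) → ℝ) := by
  funext A
  simp [chi, sec]

theorem chi_prod (I : Finset (γ × α)) (A : γ → Finset α) :
    chi I A = ∏ g, (if sec I g ⊆ A g then (1 : ℝ) else 0) := by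
  unfold chi
  by_cases h : ∀ g, sec I g ⊆ A g
  · rw [if_pos h, prod_eq_one]
    intro g _
    rw [if_pos (h g)]
  · rw [if_neg h]
    push Not at h
    obtain ⟨g, hg⟩ := h
    rw [prod_eq_zero (mem_univ g)]
    rw [if_neg hg]

/-- functions of degree at most `t` -/
def Poly (α γ : Type) [DecidableEq α] [Fintype α] [DecidableEq γ] [Fintype γ] (t : ℕ) :
    Submodule ℝ ((γ → Finset α) → ℝ) :=
  Submodule.span ℝ (chi '' {I : Finset (γ × α) | I.card ≤ t})

theorem chi_mem {I : Finset (γ × α)} {t : ℕ} (h : I.card ≤ t) : chi I ∈ Poly α γ t :=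
  Submodule.subset_span ⟨I, h, rfl⟩

theorem Poly_mono {s t : ℕ} (h : s ≤ t) : Poly α γ s ≤ Poly α γ t := by
  apply Submodule.span_mono
  rintro _ ⟨I, hI, rfl⟩
  exact ⟨I, le_trans hI h, rfl⟩

theorem one_mem (t : ℕ) : (1 : (γ → Finset α) → ℝ) ∈ Poly α γ t := by
  rw [← chi_empty]
  exact chi_mem (by simp)

theorem mul_mem {s t : ℕ} {P Q : (γ → Finset α) → ℝ} (hP : P ∈ Poly α γ s)
    (hQ : Q ∈ Poly α γ t) : P * Q ∈ Poly α γ (s + t) := by
  have h1 := Submodule.mul_mem_mul hP hQ
  unfold Poly at h1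
  rw [Submodule.span_mul_span] at h1
  refine Submodule.span_le.2 ?_ h1
  rintro _ ⟨_, ⟨I, hI, rfl⟩, _, ⟨J, hJ, rfl⟩, rfl⟩
  simp only
  rw [chi_mul]
  exact chi_mem ((card_union_le I J).trans (add_le_add hI hJ))

/-- the expectation for the product of the signed measures `ν` -/
noncomputable def EE (ν : Finset α → ℝ) (P : (γ → Finset α) → ℝ) : ℝ :=
  ∑ A : γ → Finset α, (∏ g, ν (A g)) * P A

theorem EE_add (ν : Finset α → ℝ) (P Q : (γ → Finset α) → ℝ) :
    EE ν (P + Q) = EE ν P + EE ν Q := by
  simp only [EE, Pi.add_apply, mul_add, sum_add_distrib]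

theorem EE_smul (ν : Finset α → ℝ) (c : ℝ) (P : (γ → Finset α) → ℝ) :
    EE ν (c • P) = c * EE ν P := by
  simp only [EE, Pi.smul_apply, smul_eq_mul, mul_sum]
  exact sum_congr rfl fun A _ => by ring

theorem EE_zero (ν : Finset α → ℝ) : EE ν (0 : (γ → Finset α) → ℝ) = 0 := by
  simp [EE]

theorem EE_sum {κ : Type*} (ν : Finset α → ℝ) (S : Finset κ) (P : κ → (γ → Finset α) → ℝ) :
    EE ν (∑ k ∈ S, P k) = ∑ k ∈ S, EE ν (P k) := by
  classical
  induction S using Finset.induction_on with
  | empty => simp [EE_zero]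
  | insert a S ha ih => rw [sum_insert ha, sum_insert ha, EE_add, ih]

/-- expectation of a product -/
theorem EE_prod (ν : Finset α → ℝ) (F : γ → Finset α → ℝ) :
    EE ν (fun A => ∏ g, F g (A g)) = ∏ g, ∑ B, ν B * F g B := by
  rw [prod_univ_sum, Fintype.piFinset_univ]
  unfold EE
  refine sum_congr rfl fun A _ => ?_
  rw [prod_mul_distrib]

section moments

variable (s : ℝ) (ν : Finset α → ℝ)
  (hν : ∀ I : Finset α, ∑ A : Finset α, (if I ⊆ A then ν A else 0) = mu (Fintype.card α) s I.card)

include hν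

theorem sum_nu (I : Finset α) : ∑ B, ν B * (if I ⊆ B then 1 else 0) =
    mu (Fintype.card α) s I.card := by
  rw [← hν I]
  refine sum_congr rfl fun A _ => ?_
  split_ifs <;> simp

theorem EE_chi (I : Finset (γ × α)) :
    EE ν (chi I) = ∏ g, mu (Fintype.card α) s (sec I g).card := by
  have h1 : (chi I : (γ → Finset α) → ℝ) =
      fun A => ∏ g, (if sec I g ⊆ A g then (1 : ℝ) else 0) := funext fun A => chi_prod I A
  rw [h1, EE_prod ν fun g B => if sec I g ⊆ B then (1 : ℝ) else 0]
  exact prod_congr rfl fun g _ => sum_nu s ν hν _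

/-- positivity -/
theorem EE_nonneg {t : ℕ} (hN : 2 * t ≤ Fintype.card α) (hs : (2 * t : ℝ) ≤ s + 1)
    (hNs : (t : ℝ) ≤ Fintype.card α - s + 1) (ht : 1 ≤ t) {P : (γ → Finset α) → ℝ}
    (hP : P ∈ Poly α γ t) : 0 ≤ EE ν (P * P) := by
  obtain ⟨w, hw⟩ := gram s t hN hs hNs ht
  -- coefficients
  obtain ⟨c, hc0, hc⟩ : ∃ c : Finset (γ × α) → ℝ, (∀ I, c I ≠ 0 → I.card ≤ t) ∧
      P = ∑ I, c I • chi I := by
    refine Submodule.span_induction ?_ ?_ ?_ ?_ hP
    · rintro _ ⟨I, hI, rfl⟩
      refine ⟨fun J => if J = I then 1 else 0, ?_, ?_⟩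
      · intro J hJ
        by_cases h : J = I
        · rw [h]; exact hI
        · exact absurd (if_neg h) hJ
      · simp
    · exact ⟨0, fun I h => absurd rfl h, by simp⟩
    · rintro x y _ _ ⟨c, hc, rfl⟩ ⟨d, hd, rfl⟩
      refine ⟨c + d, ?_, ?_⟩
      · intro I hI
        by_cases h : c I = 0
        · refine hd I fun h' => hI ?_
          rw [Pi.add_apply, h, h', add_zero]
        · exact hc I h
      · simp only [Pi.add_apply, add_smul, sum_add_distrib]
    · rintro a x _ ⟨c, hc, rfl⟩
      refine ⟨a • c, ?_, ?_⟩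
      · intro I hI
        refine hc I fun h => hI ?_
        rw [Pi.smul_apply, h, smul_zero]
      · simp only [Pi.smul_apply, smul_sum, smul_smul, smul_eq_mul]
  have h1 : P * P = ∑ I, ∑ J, (c I * c J) • chi (I ∪ J) := by
    rw [hc, sum_mul_sum]
    refine sum_congr rfl fun I _ => sum_congr rfl fun J _ => ?_
    rw [smul_mul_smul_comm, chi_mul]
  have h2 : EE ν (P * P) = ∑ I, ∑ J, c I * c J * ∏ g, mu (Fintype.card α) s
      (sec I g ∪ sec J g).card := by
    rw [h1, EE_sum]
    refine sum_congr rfl fun I _ => ?_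
    rw [EE_sum]
    refine sum_congr rfl fun J _ => ?_
    rw [EE_smul, EE_chi s ν hν]
    simp only [sec_union]
  have h3 : ∀ I J, c I * c J * ∏ g, mu (Fintype.card α) s (sec I g ∪ sec J g).card =
      ∑ r : γ → Finset α, (c I * ∏ g, w (sec I g) (r g)) * (c J * ∏ g, w (sec J g) (r g)) := by
    intro I J
    by_cases hI : c I = 0
    · simp [hI]
    by_cases hJ : c J = 0
    · simp [hJ]
    have h4 : ∏ g, mu (Fintype.card α) s (sec I g ∪ sec J g).card =
        ∏ g, ∑ K, w (sec I g) K * w (sec J g) K :=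
      prod_congr rfl fun g _ => hw _ _ ((card_sec_le I g).trans (hc0 I hI))
        ((card_sec_le J g).trans (hc0 J hJ))
    rw [h4, prod_univ_sum, Fintype.piFinset_univ, mul_sum]
    refine sum_congr rfl fun r _ => ?_
    rw [prod_mul_distrib]
    ring
  have h5 : EE ν (P * P) =
      ∑ r : γ → Finset α, (∑ I, c I * ∏ g, w (sec I g) (r g)) ^ 2 := by
    rw [h2]
    simp_rw [h3]
    have h6 : ∀ I, ∑ J, ∑ r : γ → Finset α, (c I * ∏ g, w (sec I g) (r g)) *
        (c J * ∏ g, w (sec J g) (r g)) = ∑ r : γ → Finset α, ∑ J,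
        (c I * ∏ g, w (sec I g) (r g)) * (c J * ∏ g, w (sec J g) (r g)) :=
      fun I => sum_comm
    simp_rw [h6]
    rw [sum_comm]
    refine sum_congr rfl fun r _ => ?_
    rw [pow_two, sum_mul_sum]
  rw [h5]
  exact sum_nonneg fun r _ => sq_nonneg _

/-- the relation in one group -/
theorem sum_nu_card (I : Finset α) (hI : I.card < Fintype.card α) :
    ∑ B, ν B * ((if I ⊆ B then 1 else 0) * ((B.card : ℝ) - s)) = 0 := by
  have h1 : ∀ B : Finset α, ν B * ((if I ⊆ B then 1 else 0) * ((B.card : ℝ) - s)) =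
      ∑ v, ν B * (if insert v I ⊆ B then 1 else 0) -
        s * (ν B * (if I ⊆ B then 1 else 0)) := by
    intro B
    have h2 : ∀ v, (if insert v I ⊆ B then (1 : ℝ) else 0) =
        (if I ⊆ B then 1 else 0) * (if v ∈ B then 1 else 0) := by
      intro v
      by_cases hv : v ∈ B
      · by_cases hIB : I ⊆ B
        · rw [if_pos (insert_subset hv hIB), if_pos hv, if_pos hIB, one_mul]
        · rw [if_neg (fun h => hIB ((subset_insert v I).trans h)), if_neg hIB, zero_mul]
      · rw [if_neg (fun h => hv (h (mem_insert_self v I))), if_neg hv, mul_zero]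
    simp_rw [h2]
    rw [← mul_sum, ← mul_sum, sum_boole]
    have h3 : (univ.filter fun v => v ∈ B) = B := by ext v; simp
    rw [h3]
    ring
  simp_rw [h1]
  rw [sum_sub_distrib, sum_comm, ← mul_sum, sum_nu s ν hν]
  simp_rw [sum_nu s ν hν]
  have h4 : ∑ v, mu (Fintype.card α) s (insert v I).card =
      ∑ v ∈ I, mu (Fintype.card α) s (insert v I).card +
        ∑ v ∈ Iᶜ, mu (Fintype.card α) s (insert v I).card := (sum_add_sum_compl I _).symm
  have h5 : ∑ v ∈ I, mu (Fintype.card α) s (insert v I).card =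
      I.card * mu (Fintype.card α) s I.card := by
    rw [← nsmul_eq_mul, ← sum_const]
    refine sum_congr rfl fun v hv => ?_
    rw [insert_eq_of_mem hv]
  have h6 := mu_lift s I ∅ (by simpa using hI)
  simp only [union_empty] at h6
  rw [h4, h5, h6]
  ring

/-- the relation: on functions of degree `< card α` the number of small facilities is `s` -/
theorem EE_rel {n : ℕ} (hn : n < Fintype.card α) (g : γ) {Q : (γ → Finset α) → ℝ}
    (hQ : Q ∈ Poly α γ n) : EE ν (Q * fun A => ((A g).card : ℝ) - s) = 0 := by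
  refine Submodule.span_induction ?_ ?_ ?_ ?_ hQ
  · rintro _ ⟨I, hI, rfl⟩
    have h1 : (chi I * fun A : γ → Finset α => ((A g).card : ℝ) - s) =
        fun A => ∏ g', ((if sec I g' ⊆ A g' then (1 : ℝ) else 0) *
          (if g' = g then ((A g').card : ℝ) - s else 1)) := by
      funext A
      rw [Pi.mul_apply, chi_prod, prod_mul_distrib, prod_ite_eq' univ g, if_pos (mem_univ g)]
    rw [h1, EE_prod ν fun g' B => (if sec I g' ⊆ B then (1 : ℝ) else 0) *
          (if g' = g then (B.card : ℝ) - s else 1)]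
    refine prod_eq_zero (mem_univ g) ?_
    simp only [if_true]
    refine sum_nu_card s ν hν (sec I g) (lt_of_le_of_lt (card_sec_le I g) ?_)
    exact lt_of_le_of_lt hI hn
  · rw [zero_mul, EE_zero]
  · intro x y _ _ hx hy
    rw [add_mul, EE_add, hx, hy, add_zero]
  · intro a x _ hx
    rw [smul_mul_assoc, EE_smul, hx, mul_zero]

end moments

end Pool.Agent.Helper82.SOS
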