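import Pool.Agent.Helper82.SOS.Defs
import Pool.Agent.Helper82.SOS.Prod

/-!
The instance: groups at a large distance, each with `N` small facilities `α` and `b` further
facilities `β`; the 0/1 vectors attached to the sets `A g` of open small facilities.
-/

open Finset

namespace Pool.Agent.Helper82.SOS

open Pool.Agent.Helper82.CKM

set_option linter.unusedSectionVars false

section defs

variable (γ α β ω : Type)

/-- the facilities -/
abbrev Fac : Type := γ × (α ⊕ β)

/-- the clients -/
abbrev Cli : Type := γ × ((α × β × (ω ⊕ ω)) ⊕ (β × ω))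

variable {γ α β ω}

/-- the group of a point -/
def grp : Fac γ α β ⊕ Cli γ α β ω → γ
  | Sum.inl p => p.1
  | Sum.inr c => c.1

open Classical in
/-- the distance -/
noncomputable def dist (L : ℝ) (x y : Fac γ α β ⊕ Cli γ α β ω) : ℝ :=
  if x = y then 0 else if grp x = grp y then 1 else L

end defs

variable (γ α β ω : Type) [DecidableEq α] [Fintype α] [DecidableEq γ] [Fintype γ]
  [DecidableEq β] [Fintype β] [Fintype ω]

/-- the instance -/
noncomputable def inst (L : ℝ) (hL : 1 ≤ L) : Inst where
  F := Fac γ α β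
  D := Cli γ α β ω
  fF := inferInstance
  fD := inferInstance
  d := dist L
  nonneg := by
    intro x y
    unfold dist
    split_ifs <;> linarith
  self := by
    intro x
    simp [dist]
  symm := by
    intro x y
    unfold dist
    by_cases h : x = y
    · rw [if_pos h, if_pos h.symm]
    · rw [if_neg h, if_neg (Ne.symm h)]
      by_cases h2 : grp x = grp y
      · rw [if_pos h2, if_pos h2.symm]
      · rw [if_neg h2, if_neg (Ne.symm h2)]
  tri := by
    intro x y z
    unfold dist
    by_cases h1 : x = y
    · subst h1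
      simp
    by_cases h2 : y = z
    · subst h2
      simp
    by_cases h3 : x = z
    · subst h3
      rw [if_pos rfl, if_neg h1, if_neg h2]
      split_ifs <;> linarith
    rw [if_neg h1, if_neg h2, if_neg h3]
    by_cases h4 : grp x = grp y
    · rw [if_pos h4, h4]
      split_ifs <;> linarith
    · rw [if_neg h4]
      split_ifs <;> linarith
  U := fun _ => 2 * (Fintype.card β * Fintype.card ω)

variable {γ α β ω}

/-- the assignment for the sets `A g` of open small facilities -/
def asg (A : γ → Finset α) : Cli γ α β ω → Fac γ α β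
  | (g, Sum.inl (i, f, _)) => if i ∈ A g then (g, Sum.inl i) else (g, Sum.inr f)
  | (g, Sum.inr (f, _)) => (g, Sum.inr f)

/-- the 0/1 vector -/
def phi (A : γ → Finset α) : Fac γ α β ⊕ (Fac γ α β × Cli γ α β ω) → ℝ
  | Sum.inl (g, Sum.inl i) => if i ∈ A g then 1 else 0
  | Sum.inl (_, Sum.inr _) => 1
  | Sum.inr (p, c) => if asg A c = p then 1 else 0

theorem chi_single (g : γ) (i : α) (A : γ → Finset α) :
    chi {(g, i)} A = if i ∈ A g then 1 else 0 := by
  unfold chi
  have h : (∀ g', sec {(g, i)} g' ⊆ A g') ↔ i ∈ A g := by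
    constructor
    · intro h
      exact h g (by simp [sec])
    · intro h g' x hx
      rw [mem_sec, mem_singleton, Prod.mk.injEq] at hx
      rw [hx.1, hx.2]
      exact h
  by_cases h1 : i ∈ A g
  · rw [if_pos h1, if_pos (h.2 h1)]
  · rw [if_neg h1, if_neg (fun h2 => h1 (h.1 h2))]

theorem single_mem (g : γ) (i : α) :
    (fun A : γ → Finset α => if i ∈ A g then (1 : ℝ) else 0) ∈ Poly α γ 1 := by
  have h := chi_mem (γ := γ) (α := α) (I := {(g, i)}) (t := 1) (by simp)
  have h2 : (fun A : γ → Finset α => if i ∈ A g then (1 : ℝ) else 0) = chi {(g, i)} :=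
    funext fun A => (chi_single g i A).symm
  rw [h2]
  exact h

theorem single_mem' (g : γ) (i : α) :
    (fun A : γ → Finset α => if i ∈ A g then (0 : ℝ) else 1) ∈ Poly α γ 1 := by
  have h2 : (fun A : γ → Finset α => if i ∈ A g then (0 : ℝ) else 1) =
      1 - (fun A : γ → Finset α => if i ∈ A g then (1 : ℝ) else 0) := by
    funext A
    simp only [Pi.sub_apply, Pi.one_apply]
    split_ifs <;> simp
  rw [h2]
  exact Submodule.sub_mem _ (one_mem 1) (single_mem g i)

theorem const_mem (c : ℝ) (t : ℕ) : (fun _ : γ → Finset α => c) ∈ Poly α γ t := by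
  have h : (fun _ : γ → Finset α => c) = c • (1 : (γ → Finset α) → ℝ) := by
    funext A
    simp
  rw [h]
  exact Submodule.smul_mem _ _ (one_mem t)

/-- the coordinates are functions of degree at most one -/
theorem phi_mem (v : Fac γ α β ⊕ (Fac γ α β × Cli γ α β ω)) :
    (fun A : γ → Finset α => phi A v) ∈ Poly α γ 1 := by
  rcases v with ⟨g, i | f⟩ | ⟨p, ⟨g, ⟨i, f, l⟩ | ⟨f, l⟩⟩⟩
  · exact single_mem g i
  · exact const_mem 1 1
  · by_cases h1 : (g, Sum.inl i) = p
    · have h2 : (g, Sum.inr f) ≠ p := by
        rw [← h1]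
        simp
      have h3 : (fun A : γ → Finset α => phi A (Sum.inr (p, (g, Sum.inl (i, f, l))) :
          Fac γ α β ⊕ (Fac γ α β × Cli γ α β ω))) =
          fun A : γ → Finset α => if i ∈ A g then (1 : ℝ) else 0 := by
        funext A
        by_cases h4 : i ∈ A g <;> simp [phi, asg, h4, h1, h2]
      rw [h3]
      exact single_mem g i
    · by_cases h2 : (g, Sum.inr f) = p
      · have h3 : (fun A : γ → Finset α => phi A (Sum.inr (p, (g, Sum.inl (i, f, l))) :
            Fac γ α β ⊕ (Fac γ α β × Cli γ α β ω))) =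
            fun A : γ → Finset α => if i ∈ A g then (0 : ℝ) else 1 := by
          funext A
          by_cases h4 : i ∈ A g <;> simp [phi, asg, h4, h1, h2]
        rw [h3]
        exact single_mem' g i
      · have h3 : (fun A : γ → Finset α => phi A (Sum.inr (p, (g, Sum.inl (i, f, l))) :
            Fac γ α β ⊕ (Fac γ α β × Cli γ α β ω))) =
            fun _ : γ → Finset α => (0 : ℝ) := by
          funext A
          by_cases h4 : i ∈ A g <;> simp [phi, asg, h4, h1, h2]
        rw [h3]
        exact const_mem 0 1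
  · exact const_mem (if (g, Sum.inr f) = p then 1 else 0) 1

/-- products of functions of low degree -/
theorem prod_mem {κ : Type*} (S : Finset κ) (f : κ → (γ → Finset α) → ℝ) (n : κ → ℕ)
    (h : ∀ k ∈ S, f k ∈ Poly α γ (n k)) : ∏ k ∈ S, f k ∈ Poly α γ (∑ k ∈ S, n k) := by
  classical
  induction S using Finset.induction_on with
  | empty => exact one_mem _
  | insert a S ha ih =>
    rw [prod_insert ha, sum_insert ha]
    exact mul_mem (h a (mem_insert_self a S)) (ih fun k hk => h k (mem_insert_of_mem hk))

theorem pow_mem {f : (γ → Finset α) → ℝ} (hf : f ∈ Poly α γ 1) (n : ℕ) :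
    f ^ n ∈ Poly α γ n := by
  induction n with
  | zero => exact one_mem _
  | succ n ih =>
    rw [pow_succ]
    exact mul_mem ih hf

/-- a polynomial of degree at most `t` in the coordinates -/
theorem eval_mem {t : ℕ} (p : MvPolynomial (Fac γ α β ⊕ (Fac γ α β × Cli γ α β ω)) ℝ)
    (hp : p.totalDegree ≤ t) :
    (fun A : γ → Finset α => MvPolynomial.eval (phi A) p) ∈ Poly α γ t := by
  have h : (fun A : γ → Finset α => MvPolynomial.eval (phi A) p) =
      ∑ m ∈ p.support, MvPolynomial.coeff m p • ∏ v ∈ m.support,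
        (fun A : γ → Finset α => phi A v) ^ m v := by
    funext A
    rw [MvPolynomial.eval_eq, Finset.sum_apply]
    refine sum_congr rfl fun m _ => ?_
    rw [Pi.smul_apply, Finset.prod_apply, smul_eq_mul]
    rfl
  rw [h]
  refine Submodule.sum_mem _ fun m hm => Submodule.smul_mem _ _ ?_
  refine Poly_mono ?_ (prod_mem m.support _ (fun v => m v) fun v _ => pow_mem (phi_mem v) (m v))
  exact (MvPolynomial.le_totalDegree hm).trans hp

/-! ### the loads -/

theorem asg_inl (A : γ → Finset α) (g g' : γ) (a a' : α) (f' : β) (l : ω ⊕ ω) :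
    asg (β := β) A (g', Sum.inl (a', f', l)) = (g, Sum.inl a) ↔ g' = g ∧ a' = a ∧ a ∈ A g := by
  simp only [asg]
  split_ifs with h
  · rw [Prod.mk.injEq, Sum.inl.injEq]
    constructor
    · rintro ⟨rfl, rfl⟩
      exact ⟨rfl, rfl, h⟩
    · rintro ⟨rfl, rfl, -⟩
      exact ⟨rfl, rfl⟩
  · constructor
    · intro h2
      simp at h2
    · rintro ⟨rfl, rfl, h2⟩
      exact absurd h2 h

theorem asg_inr (A : γ → Finset α) (g g' : γ) (f : β) (a' : α) (f' : β) (l : ω ⊕ ω) :
    asg (β := β) A (g', Sum.inl (a', f', l)) = (g, Sum.inr f) ↔ g' = g ∧ f' = f ∧ a' ∉ A g := by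
  simp only [asg]
  split_ifs with h
  · constructor
    · intro h2
      simp at h2
    · rintro ⟨rfl, rfl, h2⟩
      exact absurd h h2
  · rw [Prod.mk.injEq, Sum.inr.injEq]
    constructor
    · rintro ⟨rfl, rfl⟩
      exact ⟨rfl, rfl, h⟩
    · rintro ⟨rfl, rfl, -⟩
      exact ⟨rfl, rfl⟩

/-- the load of a small facility -/
theorem load_small (A : γ → Finset α) (g : γ) (a : α) :
    ∑ c : Cli γ α β ω, phi A (Sum.inr ((g, Sum.inl a), c) :
      Fac γ α β ⊕ (Fac γ α β × Cli γ α β ω)) =
      2 * (Fintype.card β * Fintype.card ω) * (if a ∈ A g then 1 else 0) := by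
  have h1 : ∀ c : Cli γ α β ω, phi A (Sum.inr ((g, Sum.inl a), c) :
      Fac γ α β ⊕ (Fac γ α β × Cli γ α β ω)) =
      if asg A c = (g, Sum.inl a) then 1 else 0 := fun c => rfl
  simp_rw [h1]
  rw [Fintype.sum_prod_type, sum_eq_single g]
  · rw [Fintype.sum_sum_type, Fintype.sum_prod_type, sum_eq_single a]
    · have h2 : ∀ y : β × (ω ⊕ ω), (if asg A (g, Sum.inl (a, y)) = (g, Sum.inl a) then (1 : ℝ)
          else 0) = if a ∈ A g then 1 else 0 := by
        rintro ⟨f', l⟩
        simp only [asg_inl, true_and]
      have h3 : ∀ y : β × ω, (if asg A (g, Sum.inr y) = (g, Sum.inl a) then (1 : ℝ)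
          else 0) = 0 := by
        rintro ⟨f', l⟩
        simp [asg]
      simp_rw [h2, h3]
      rw [sum_const, sum_const_zero, nsmul_eq_mul, card_univ, Fintype.card_prod,
        Fintype.card_sum]
      push_cast
      ring
    · intro a' _ ha'
      refine sum_eq_zero fun x _ => ?_
      obtain ⟨f', l⟩ := x
      rw [if_neg]
      rw [asg_inl]
      exact fun h => ha' h.2.1
    · intro h
      exact absurd (mem_univ a) h
  · intro g' _ hg'
    refine sum_eq_zero fun x _ => ?_
    rw [if_neg]
    rcases x with ⟨a', f', l⟩ | ⟨f', l⟩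
    · rw [asg_inl]
      exact fun h => hg' h.1
    · simp [asg]
  · intro h
    exact absurd (mem_univ g) h

/-- the load of a further facility -/
theorem load_big (A : γ → Finset α) (g : γ) (f : β) :
    ∑ c : Cli γ α β ω, phi A (Sum.inr ((g, Sum.inr f), c) :
      Fac γ α β ⊕ (Fac γ α β × Cli γ α β ω)) =
      2 * Fintype.card ω * (Fintype.card α - (A g).card) + Fintype.card ω := by
  have h1 : ∀ c : Cli γ α β ω, phi A (Sum.inr ((g, Sum.inr f), c) :
      Fac γ α β ⊕ (Fac γ α β × Cli γ α β ω)) =
      if asg A c = (g, Sum.inr f) then 1 else 0 := fun c => rfl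
  simp_rw [h1]
  rw [Fintype.sum_prod_type, sum_eq_single g]
  · rw [Fintype.sum_sum_type]
    congr 1
    · have h2 : ∀ a : α, ∑ y : β × (ω ⊕ ω),
          (if asg A (g, Sum.inl (a, y)) = (g, Sum.inr f) then (1 : ℝ) else 0) =
          2 * Fintype.card ω * (1 - if a ∈ A g then 1 else 0) := by
        intro a
        rw [Fintype.sum_prod_type, sum_eq_single f]
        · simp_rw [asg_inr]
          simp only [true_and]
          rw [sum_const, nsmul_eq_mul, card_univ, Fintype.card_sum]
          push_cast
          split_ifs <;> ring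
        · intro f' _ hf'
          refine sum_eq_zero fun l _ => ?_
          rw [if_neg]
          rw [asg_inr]
          exact fun h => hf' h.2.1
        · intro h
          exact absurd (mem_univ f) h
      rw [Fintype.sum_prod_type]
      simp_rw [h2]
      rw [← mul_sum, sum_sub_distrib, sum_boole, sum_const, nsmul_eq_mul, mul_one, card_univ]
      have h3 : (univ.filter fun v => v ∈ A g) = A g := by ext v; simp
      rw [h3]
    · rw [Fintype.sum_prod_type, sum_eq_single f]
      · simp [asg]
      · intro f' _ hf'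
        refine sum_eq_zero fun l _ => ?_
        rw [if_neg]
        simp only [asg, Prod.mk.injEq, Sum.inr.injEq, true_and]
        exact hf'
      · intro h
        exact absurd (mem_univ f) h
  · intro g' _ hg'
    refine sum_eq_zero fun x _ => ?_
    rw [if_neg]
    rcases x with ⟨a', f', l⟩ | ⟨f', l⟩
    · rw [asg_inr]
      exact fun h => hg' h.1
    · simp only [asg, Prod.mk.injEq, not_and]
      exact fun h => absurd h hg'
  · intro h
    exact absurd (mem_univ g) h

/-- the number of open facilities -/
theorem count_open (A : γ → Finset α) :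
    ∑ p : Fac γ α β, phi A (Sum.inl p : Fac γ α β ⊕ (Fac γ α β × Cli γ α β ω)) =
      ∑ g, (((A g).card : ℝ) + Fintype.card β) := by
  rw [Fintype.sum_prod_type]
  refine sum_congr rfl fun g _ => ?_
  rw [Fintype.sum_sum_type]
  simp only [phi]
  rw [sum_boole, sum_const, nsmul_eq_mul, mul_one, card_univ]
  have h3 : (univ.filter fun v => v ∈ A g) = A g := by ext v; simp
  rw [h3]

/-- every client is assigned once -/
theorem sum_assign (A : γ → Finset α) (c : Cli γ α β ω) :
    ∑ p : Fac γ α β, phi A (Sum.inr (p, c) : Fac γ α β ⊕ (Fac γ α β × Cli γ α β ω)) = 1 := by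
  simp only [phi]
  rw [sum_ite_eq]
  simp

/-- the difference of the two coordinates is 0 or 1 -/
theorem phi_diff (A : γ → Finset α) (p : Fac γ α β) (c : Cli γ α β ω) :
    let x := phi A (Sum.inl p : Fac γ α β ⊕ (Fac γ α β × Cli γ α β ω)) - phi A (Sum.inr (p, c))
    x * x = x := by
  rcases p with ⟨g, i | f⟩
  · simp only [phi]
    split_ifs with h1 h2 h2
    · norm_num
    · norm_num
    · exfalso
      rcases c with ⟨g', ⟨a', f', l⟩ | ⟨f', l⟩⟩
      · rw [asg_inl] at h2
        exact h1 h2.2.2
      · simp [asg] at h2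
    · norm_num
  · simp only [phi]
    split_ifs <;> norm_num

theorem phi_sq (A : γ → Finset α) (v : Fac γ α β ⊕ (Fac γ α β × Cli γ α β ω)) :
    phi A v ^ 2 = phi A v := by
  rcases v with ⟨g, i | f⟩ | ⟨p, c⟩
  · simp only [phi]
    split_ifs <;> norm_num
  · simp [phi]
  · simp only [phi]
    split_ifs <;> norm_num

end Pool.Agent.Helper82.SOS
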