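import Pool.Agent.Helper82.SOS.Main

/-!
Integral solutions of the instance; soundness of the relaxation.
-/

open Finset

namespace Pool.Agent.Helper82.SOS

open Pool.Agent.Helper82.CKM

set_option linter.unusedSectionVars false

section integral

variable {γ α β ω : Type} [DecidableEq α] [Fintype α] [DecidableEq γ] [Fintype γ]
  [DecidableEq β] [Fintype β] [Fintype ω]

theorem card_cli : Fintype.card (Cli γ α β ω) =
    Fintype.card γ * (Fintype.card β * Fintype.card ω * (2 * Fintype.card α + 1)) := by
  simp only [Fintype.card_prod, Fintype.card_sum]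
  ring

/-- the number of clients of one group -/
theorem card_group (g : γ) :
    (univ.filter fun c : Cli γ α β ω => c.1 = g).card =
      Fintype.card β * Fintype.card ω * (2 * Fintype.card α + 1) := by
  classical
  have h : (univ.filter fun c : Cli γ α β ω => c.1 = g) =
      (univ : Finset ((α × β × (ω ⊕ ω)) ⊕ (β × ω))).map
        ⟨fun x => (g, x), fun x y h => (Prod.ext_iff.1 h).2⟩ := by
    ext c
    simp only [mem_filter, mem_univ, true_and, mem_map, Function.Embedding.coeFn_mk]
    constructor
    · rintro rfl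
      exact ⟨c.2, rfl⟩
    · rintro ⟨x, rfl⟩
      rfl
  rw [h, card_map, card_univ, Fintype.card_sum, Fintype.card_prod, Fintype.card_prod,
    Fintype.card_prod, Fintype.card_sum]
  ring

/-- A fractional assignment to few open facilities with small loads sends a certain amount of the
clients of one group to other groups. -/
theorem far_mass (ε : ℝ) (hε : 0 ≤ ε) (m : Fac γ α β → ℕ) (x : Fac γ α β → Cli γ α β ω → ℝ)
    (hx0 : ∀ i j, 0 ≤ x i j) (hx1 : ∀ j, ∑ i, x i j = 1)
    (hcap : ∀ i, ∑ j, x i j ≤ (1 + ε) * (m i * (2 * (Fintype.card β * Fintype.card ω))))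
    (hm : ∑ i, m i < Fintype.card γ * (Fintype.card α + 1)) :
    ∃ g : γ, (1 - 2 * ε * Fintype.card α) * (Fintype.card β * Fintype.card ω) ≤
      ∑ j ∈ univ.filter (fun j : Cli γ α β ω => j.1 = g),
        ∑ i ∈ univ.filter (fun i : Fac γ α β => i.1 ≠ g), x i j := by
  classical
  -- a group with at most `N` open facilities
  obtain ⟨g, hg⟩ : ∃ g : γ, ∑ i ∈ univ.filter (fun i : Fac γ α β => i.1 = g), m i <
      Fintype.card α + 1 := by
    by_contra h
    push Not at h
    have h1 : ∑ i, m i = ∑ g : γ, ∑ i ∈ univ.filter (fun i : Fac γ α β => i.1 = g), m i :=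
      (sum_fiberwise_of_maps_to (fun _ _ => mem_univ _) _).symm
    have h2 : ∑ _g : γ, (Fintype.card α + 1) ≤
        ∑ g : γ, ∑ i ∈ univ.filter (fun i : Fac γ α β => i.1 = g), m i :=
      sum_le_sum fun g _ => h g
    rw [sum_const, smul_eq_mul, card_univ, ← h1] at h2
    omega
  refine ⟨g, ?_⟩
  have hN : ((∑ i ∈ univ.filter (fun i : Fac γ α β => i.1 = g), m i : ℕ) : ℝ) ≤
      Fintype.card α := by
    have : ∑ i ∈ univ.filter (fun i : Fac γ α β => i.1 = g), m i ≤ Fintype.card α := by omega
    exact_mod_cast this
  -- the mass inside the group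
  have hin : ∑ j ∈ univ.filter (fun j : Cli γ α β ω => j.1 = g),
      ∑ i ∈ univ.filter (fun i : Fac γ α β => i.1 = g), x i j ≤
      (1 + ε) * (Fintype.card α * (2 * (Fintype.card β * Fintype.card ω))) := by
    rw [sum_comm]
    calc ∑ i ∈ univ.filter (fun i : Fac γ α β => i.1 = g),
          ∑ j ∈ univ.filter (fun j : Cli γ α β ω => j.1 = g), x i j
        ≤ ∑ i ∈ univ.filter (fun i : Fac γ α β => i.1 = g), ∑ j, x i j :=
          sum_le_sum fun i _ => sum_le_sum_of_subset_of_nonneg (subset_univ _)
            fun j _ _ => hx0 i j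
      _ ≤ ∑ i ∈ univ.filter (fun i : Fac γ α β => i.1 = g),
          (1 + ε) * (m i * (2 * (Fintype.card β * Fintype.card ω))) :=
          sum_le_sum fun i _ => hcap i
      _ = (1 + ε) * (((∑ i ∈ univ.filter (fun i : Fac γ α β => i.1 = g), m i : ℕ) : ℝ) *
          (2 * (Fintype.card β * Fintype.card ω))) := by
          rw [← mul_sum, ← sum_mul]
          push_cast
          ring
      _ ≤ _ := by
          refine mul_le_mul_of_nonneg_left ?_ (by linarith)
          exact mul_le_mul_of_nonneg_right hN (by positivity)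
  have hsplit : ∀ j, ∑ i ∈ univ.filter (fun i : Fac γ α β => i.1 = g), x i j +
      ∑ i ∈ univ.filter (fun i : Fac γ α β => i.1 ≠ g), x i j = 1 := by
    intro j
    rw [← hx1 j]
    exact sum_filter_add_sum_filter_not _ _ _
  have htot : ∑ j ∈ univ.filter (fun j : Cli γ α β ω => j.1 = g),
      (∑ i ∈ univ.filter (fun i : Fac γ α β => i.1 = g), x i j +
      ∑ i ∈ univ.filter (fun i : Fac γ α β => i.1 ≠ g), x i j) =
      Fintype.card β * Fintype.card ω * (2 * Fintype.card α + 1) := by
    simp_rw [hsplit]
    rw [sum_const, nsmul_eq_mul, mul_one, card_group]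
    push_cast
    ring
  rw [sum_add_distrib] at htot
  nlinarith

theorem dist_nonneg (L : ℝ) (hL : 1 ≤ L) (x y : Fac γ α β ⊕ Cli γ α β ω) : 0 ≤ dist L x y := by
  unfold dist
  split_ifs <;> linarith

theorem dist_pos (L : ℝ) (hL : 1 ≤ L) (x y : Fac γ α β ⊕ Cli γ α β ω) (h : x ≠ y) :
    0 < dist L x y := by
  unfold dist
  rw [if_neg h]
  split_ifs <;> linarith

/-- the cost of such a solution -/
theorem cost_far (L : ℝ) (hL : 1 ≤ L) (x : Fac γ α β → Cli γ α β ω → ℝ)
    (hx0 : ∀ i j, 0 ≤ x i j) (g : γ) :
    L * ∑ j ∈ univ.filter (fun j : Cli γ α β ω => j.1 = g),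
        ∑ i ∈ univ.filter (fun i : Fac γ α β => i.1 ≠ g), x i j ≤
      ∑ i, ∑ j, dist L (Sum.inr j) (Sum.inl i) * x i j := by
  classical
  rw [sum_comm (s := univ) (t := univ), mul_sum]
  calc ∑ j ∈ univ.filter (fun j : Cli γ α β ω => j.1 = g),
        L * ∑ i ∈ univ.filter (fun i : Fac γ α β => i.1 ≠ g), x i j
      ≤ ∑ j ∈ univ.filter (fun j : Cli γ α β ω => j.1 = g),
        ∑ i : Fac γ α β, dist L (Sum.inr j) (Sum.inl i) * x i j := by
        refine sum_le_sum fun j hj => ?_
        rw [mul_sum]
        have hj' : j.1 = g := (mem_filter.1 hj).2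
        refine le_trans (le_of_eq (sum_congr rfl fun i hi => ?_))
          (sum_le_sum_of_subset_of_nonneg (subset_univ (univ.filter
            (fun i : Fac γ α β => i.1 ≠ g))) fun i _ _ =>
              mul_nonneg (dist_nonneg L hL _ _) (hx0 i j))
        have hi' : i.1 ≠ g := (mem_filter.1 hi).2
        have h1 : dist L (Sum.inr j : Fac γ α β ⊕ Cli γ α β ω) (Sum.inl i) = L := by
          unfold dist
          rw [if_neg (by simp), if_neg]
          exact fun h => hi' (h.symm.trans hj')
        rw [h1]
    _ ≤ _ := sum_le_sum_of_subset_of_nonneg (subset_univ _) fun j _ _ =>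
        sum_nonneg fun i _ => mul_nonneg (dist_nonneg L hL _ _) (hx0 i j)

/-- an exact solution with `k` facilities -/
theorem exists_sol (L : ℝ) (hL : 1 ≤ L) (k : ℕ)
    (hk : Fintype.card (Cli γ α β ω) = k * (2 * (Fintype.card β * Fintype.card ω)))
    (hkF : k ≤ Fintype.card (Fac γ α β)) :
    ∃ s : Sol (inst γ α β ω L hL), s.size = k := by
  classical
  obtain ⟨S, -, hS⟩ := exists_subset_card_eq (s := (univ : Finset (Fac γ α β))) (n := k)
    (by rw [card_univ]; exact hkF)
  have hc : Fintype.card (Cli γ α β ω) =
      Fintype.card ({x // x ∈ S} × Fin (2 * (Fintype.card β * Fintype.card ω))) := by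
    rw [hk, Fintype.card_prod, Fintype.card_coe, Fintype.card_fin, hS]
  let e := Fintype.equivOfCardEq hc
  refine ⟨⟨S, fun j => (e j).1.1, fun j => (e j).1.2, fun i _ => ?_⟩, hS⟩
  have h1 : ((univ : Finset (Cli γ α β ω)).filter fun j => (e j).1.1 = i).card ≤
      (univ : Finset (Fin (2 * (Fintype.card β * Fintype.card ω)))).card := by
    refine card_le_card_of_injOn (fun j => (e j).2) (fun _ _ => mem_univ _) ?_
    intro x hx y hy hxy
    rw [mem_coe, mem_filter] at hx hy
    apply e.injective
    refine Prod.ext (Subtype.ext ?_) hxy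
    rw [hx.2, hy.2]
  rw [card_univ, Fintype.card_fin] at h1
  refine le_trans (le_of_eq ?_) h1
  congr 1
  ext j
  rw [mem_filter]
  exact ⟨fun h => mem_filter.2 ⟨mem_univ (α := Cli γ α β ω) j, h.2⟩,
    fun h => ⟨mem_univ _, (mem_filter.1 h).2⟩⟩

end integral

/-- every exact solution gives a pseudo-expectation of every degree with the same value -/
theorem sound (I : Inst) (s : Sol I) (k t : ℕ) (hk : s.size ≤ k) :
    ∃ e : PseudoExp I k t, e.value = s.cost := by
  classical
  let z : Var I → ℝ := fun v => match v with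
    | Sum.inl i => if i ∈ s.S then 1 else 0
    | Sum.inr (i, j) => if s.σ j = i then 1 else 0
  have hzl : ∀ i, z (Sum.inl i) = if i ∈ s.S then 1 else 0 := fun i => rfl
  have hzr : ∀ i j, z (Sum.inr (i, j)) = if s.σ j = i then 1 else 0 := fun i j => rfl
  have hz2 : ∀ v, z v ^ 2 = z v := by
    rintro (i | ⟨i, j⟩)
    · rw [hzl]; split_ifs <;> norm_num
    · rw [hzr]; split_ifs <;> norm_num
  let e : PseudoExp I k t :=
    { E := (MvPolynomial.aeval z).toLinearMap
      one := by simp
      bool := by
        intro v p _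
        simp only [AlgHom.toLinearMap_apply, map_mul, map_sub, map_pow, MvPolynomial.aeval_X,
          hz2, sub_self, mul_zero]
      sq := by
        intro p _
        simp only [AlgHom.toLinearMap_apply, map_pow]
        positivity
      assign := by
        intro j p _
        simp only [AlgHom.toLinearMap_apply, map_mul, map_sub, map_sum, map_one,
          MvPolynomial.aeval_X, hzr]
        rw [sum_ite_eq, if_pos (mem_univ _), sub_self, mul_zero]
      opened := by
        intro i j p _
        simp only [AlgHom.toLinearMap_apply, map_mul, map_sub, map_pow,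
          MvPolynomial.aeval_X]
        refine mul_nonneg (by positivity) (sub_nonneg.2 ?_)
        rw [hzl, hzr]
        split_ifs with h1 h2
        · exact le_rfl
        · exact absurd (h1 ▸ s.mem j) h2
        · norm_num
        · exact le_rfl
      capacity := by
        intro i p _
        simp only [AlgHom.toLinearMap_apply, map_mul, map_sub, map_pow, map_sum,
          MvPolynomial.aeval_X, MvPolynomial.aeval_C, hzl, hzr]
        refine mul_nonneg (by positivity) (sub_nonneg.2 ?_)
        rw [sum_boole]
        by_cases h1 : i ∈ s.S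
        · rw [if_pos h1]
          have h2 := s.cap i h1
          have h3 : (univ.filter fun j => s.σ j = i).card ≤ I.U i := by
            refine le_trans (le_of_eq ?_) h2
            congr 1
          simpa using h3
        · rw [if_neg h1]
          have h3 : (univ.filter fun j => s.σ j = i) = ∅ := by
            rw [filter_eq_empty_iff]
            intro j _ hj
            exact h1 (hj ▸ s.mem j)
          simp [h3]
      cardinality := by
        intro p _
        simp only [AlgHom.toLinearMap_apply, map_mul, map_sub, map_pow, map_sum,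
          MvPolynomial.aeval_X, MvPolynomial.aeval_C, hzl]
        refine mul_nonneg (by positivity) (sub_nonneg.2 ?_)
        rw [sum_boole]
        have h3 : (univ.filter fun i => i ∈ s.S) = s.S := by ext i; simp
        rw [h3]
        have h4 : s.S.card ≤ k := hk
        simpa using h4 }
  refine ⟨e, ?_⟩
  unfold PseudoExp.value Sol.cost
  rw [sum_comm]
  refine sum_congr rfl fun j _ => ?_
  have h1 : ∀ i, I.d (Sum.inr j) (Sum.inl i) * e.E (MvPolynomial.X (Sum.inr (i, j))) =
      if s.σ j = i then I.d (Sum.inr j) (Sum.inl i) else 0 := by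
    intro i
    change I.d (Sum.inr j) (Sum.inl i) *
      (MvPolynomial.aeval z).toLinearMap (MvPolynomial.X (Sum.inr (i, j))) = _
    rw [AlgHom.toLinearMap_apply, MvPolynomial.aeval_X, hzr]
    split_ifs <;> simp
  simp_rw [h1]
  rw [sum_ite_eq, if_pos (mem_univ _)]

end Pool.Agent.Helper82.SOS
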