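import Pool.Agent.Helper82.SOS.GapMain

/-!
# The Lasserre hierarchy for capacitated k-median: all relaxations with the same `ε`
-/

namespace Pool.Agent.Helper82.SOS

open Pool.Agent.Helper82.CKM

theorem levels (t h : ℕ) (ε ρ : ℝ) (ht : 1 ≤ t) (hh : 1 ≤ h) (hε0 : 0 ≤ ε)
    (hε : ε ≤ 1 / (6 * t)) : ∃ I : Inst,
      (∀ x y, x ≠ y → 0 < I.d x y) ∧ (∀ i, I.U i = 2 * t) ∧
      (∃ s : Sol I, s.size = h * (6 * t - 1)) ∧
      ∃ e : PseudoExp I (h * (6 * t - 1)) t, 0 < e.value ∧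
        ∀ (m : I.F → ℕ) (x : I.F → I.D → ℝ), (∀ i j, 0 ≤ x i j) → (∀ j, ∑ i, x i j = 1) →
          (∀ i, ∑ j, x i j ≤ (1 + ε) * (m i * I.U i)) →
          ((∑ i, m i : ℕ) : ℝ) ≤ (1 + ε) * (h * (6 * t - 1)) →
          ρ * e.value < ∑ i, ∑ j, I.d (Sum.inr j) (Sum.inl i) * x i j := by
  have htr : (1 : ℝ) ≤ t := by exact_mod_cast ht
  have hhr : (1 : ℝ) ≤ h := by exact_mod_cast hh
  have h6 : (0 : ℝ) < 6 * t := by linarith
  have h61 : (0 : ℝ) < 6 * t - 1 := by linarith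
  have h62 : (0 : ℝ) < 6 * t - 2 := by linarith
  have hε2 : ε < 1 / (6 * t - 2) :=
    lt_of_le_of_lt hε (one_div_lt_one_div_of_lt h62 (by linarith))
  have hε1 : ε < 1 / (6 * t - 1) :=
    lt_of_le_of_lt hε (one_div_lt_one_div_of_lt h61 (by linarith))
  obtain ⟨I, h1, h2, -, h3, ⟨e, he⟩, h4⟩ :=
    Pool.Agent.Helper82.SOS.GapMain.main.2 t h 1 ρ ε ht hh le_rfl hε0 hε2
  have hk : (0 : ℝ) < (h : ℝ) * (6 * t - 1) := mul_pos (by linarith) h61
  refine ⟨I, h1, fun i => by rw [h2 i, mul_one], h3, e, ?_, ?_⟩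
  · rw [he]
    by_contra hcon
    have hc : (Fintype.card I.D : ℝ) = 0 :=
      le_antisymm (not_lt.1 hcon) (Nat.cast_nonneg _)
    have hD : IsEmpty I.D := Fintype.card_eq_zero_iff.1 (by exact_mod_cast hc)
    have h5 := h4 (fun _ => 0) (fun _ _ => 0) (fun _ _ => le_rfl) (fun j => (hD.false j).elim)
      (fun i => by simp) (by
        simp only [Finset.sum_const_zero, Nat.cast_zero]
        exact mul_pos (by positivity) hk)
    rw [hc] at h5
    simp at h5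
  · intro m x hx0 hx1 hcap hs
    rw [he]
    refine h4 m x hx0 hx1 (fun i => ?_) ?_
    · have h5 := hcap i
      rw [h2 i] at h5
      push_cast at h5 ⊢
      exact h5
    · refine lt_of_le_of_lt hs (mul_lt_mul_of_pos_right (by linarith) hk)

end Pool.Agent.Helper82.SOS
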