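import Pool.Agent.Helper82.SOS.Inst

/-!
The pseudo-expectation for the instance, the integral solutions, and the soundness of the
relaxation.
-/

open Finset

namespace Pool.Agent.Helper82.SOS

open Pool.Agent.Helper82.CKM

set_option linter.unusedSectionVars false

variable {γ α β ω : Type} [DecidableEq α] [Fintype α] [DecidableEq γ] [Fintype γ]
  [DecidableEq β] [Fintype β] [Fintype ω]

/-- the polynomial ring of the instance -/
abbrev Pl (γ α β ω : Type) : Type := MvPolynomial (Fac γ α β ⊕ (Fac γ α β × Cli γ α β ω)) ℝ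

/-- the functional -/
noncomputable def EF (ν : Finset α → ℝ) : Pl γ α β ω →ₗ[ℝ] ℝ where
  toFun p := EE ν fun A : γ → Finset α => MvPolynomial.eval (phi A) p
  map_add' p q := by
    rw [← EE_add]
    congr 1
    funext A
    simp
  map_smul' c p := by
    rw [RingHom.id_apply, smul_eq_mul, ← EE_smul]
    congr 1
    funext A
    simp

theorem EF_apply (ν : Finset α → ℝ) (p : Pl γ α β ω) :
    EF ν p = EE ν fun A : γ → Finset α => MvPolynomial.eval (phi A) p := rfl

theorem exists_pseudo (L : ℝ) (hL : 1 ≤ L) (s : ℝ) (k t : ℕ) (ht : 1 ≤ t)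
    (hN : 2 * t ≤ Fintype.card α) (hs : (2 * t : ℝ) ≤ s + 1)
    (hsb : s = Fintype.card α - Fintype.card β + 1 / 2) (hb : t ≤ Fintype.card β)
    (hk : (k : ℝ) = Fintype.card γ * (s + Fintype.card β)) :
    ∃ e : PseudoExp (inst γ α β ω L hL) k t, e.value = Fintype.card (Cli γ α β ω) := by
  obtain ⟨ν, hν⟩ := exists_nu (α := α) fun I => mu (Fintype.card α) s I.card
  have hbr : (t : ℝ) ≤ Fintype.card β := by exact_mod_cast hb
  have hNs : (t : ℝ) ≤ Fintype.card α - s + 1 := by
    rw [hsb]
    linarith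
  have hone : EE ν (1 : (γ → Finset α) → ℝ) = 1 := by
    rw [← chi_empty, EE_chi s ν hν]
    refine prod_eq_one fun g _ => ?_
    simp [sec, mu, ff_zero]
  have hconst : ∀ c : ℝ, EE ν (fun _ : γ → Finset α => c) = c := by
    intro c
    have h : (fun _ : γ → Finset α => c) = c • (1 : (γ → Finset α) → ℝ) := by
      funext A
      simp
    rw [h, EE_smul, hone, mul_one]
  have hzero : ∀ F : (γ → Finset α) → ℝ, (∀ A, F A = 0) → EE ν F = 0 := by
    intro F hF
    have h : F = fun _ => (0 : ℝ) := funext hF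
    rw [h, hconst]
  have hsq : ∀ (m : ℕ) (P : (γ → Finset α) → ℝ), m ≤ t → P ∈ Poly α γ m →
      0 ≤ EE ν (P * P) := fun m P hm hP => EE_nonneg s ν hν hN hs hNs ht (Poly_mono hm hP)
  have f_one : EF ν (1 : Pl γ α β ω) = 1 := by
    rw [EF_apply]
    simp only [map_one]
    exact hone
  have f_bool : ∀ (v : Fac γ α β ⊕ (Fac γ α β × Cli γ α β ω)) (p : Pl γ α β ω),
      p.totalDegree + 2 ≤ 2 * t →
      EF ν (p * (MvPolynomial.X v ^ 2 - MvPolynomial.X v)) = 0 := by
    intro v p _
    rw [EF_apply]
    refine hzero _ fun A => ?_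
    rw [map_mul, map_sub, map_pow, MvPolynomial.eval_X, phi_sq, sub_self, mul_zero]
  have f_sq : ∀ p : Pl γ α β ω, 2 * p.totalDegree ≤ 2 * t → 0 ≤ EF ν (p ^ 2) := by
    intro p hp
    rw [EF_apply]
    have h : (fun A : γ → Finset α => MvPolynomial.eval (phi A) (p ^ 2)) =
        (fun A : γ → Finset α => MvPolynomial.eval (phi A) p) *
          fun A : γ → Finset α => MvPolynomial.eval (phi A) p := by
      funext A
      rw [map_pow, pow_two]
      rfl
    rw [h]
    exact hsq t _ le_rfl (eval_mem p (by omega))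
  have f_assign : ∀ (j : Cli γ α β ω) (p : Pl γ α β ω), p.totalDegree + 1 ≤ 2 * t →
      EF ν (p * (∑ i : Fac γ α β, MvPolynomial.X (Sum.inr (i, j)) - 1)) = 0 := by
    intro j p _
    rw [EF_apply]
    refine hzero _ fun A => ?_
    rw [map_mul, map_sub, map_sum, map_one]
    simp only [MvPolynomial.eval_X]
    rw [sum_assign A j, sub_self, mul_zero]
  have f_opened : ∀ (i : Fac γ α β) (j : Cli γ α β ω) (p : Pl γ α β ω),
      2 * p.totalDegree + 1 ≤ 2 * t →
      0 ≤ EF ν (p ^ 2 * (MvPolynomial.X (Sum.inl i) - MvPolynomial.X (Sum.inr (i, j)))) := by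
    intro i j p hp
    rw [EF_apply]
    have hx : (fun A : γ → Finset α => phi A (Sum.inl i : Fac γ α β ⊕
        (Fac γ α β × Cli γ α β ω)) - phi A (Sum.inr (i, j))) ∈ Poly α γ 1 :=
      Submodule.sub_mem _ (phi_mem _) (phi_mem _)
    have hP := eval_mem (γ := γ) (α := α) (β := β) (ω := ω) (t := t - 1) p (by omega)
    have h1 := mul_mem hP hx
    have h2 := hsq _ _ (by omega) h1
    refine le_of_le_of_eq h2 (congrArg _ (funext fun A => ?_))
    have h3 := phi_diff A i j
    simp only at h3
    simp only [Pi.mul_apply, map_mul, map_sub, map_pow, MvPolynomial.eval_X]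
    linear_combination (MvPolynomial.eval (phi A) p) ^ 2 * h3
  have f_capacity : ∀ (i : Fac γ α β) (p : Pl γ α β ω), 2 * p.totalDegree + 1 ≤ 2 * t →
      0 ≤ EF ν (p ^ 2 * (MvPolynomial.C ((2 * (Fintype.card β * Fintype.card ω) : ℕ) : ℝ) *
        MvPolynomial.X (Sum.inl i) - ∑ j : Cli γ α β ω, MvPolynomial.X (Sum.inr (i, j)))) := by
    rintro ⟨g, i | f⟩ p hp
    · rw [EF_apply]
      refine le_of_eq (hzero _ fun A => ?_).symm
      rw [map_mul, map_sub, map_mul, map_sum, MvPolynomial.eval_C]
      simp only [MvPolynomial.eval_X]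
      rw [load_small]
      simp only [phi]
      push_cast
      ring
    · rw [EF_apply]
      have hP := eval_mem (γ := γ) (α := α) (β := β) (ω := ω) (t := t - 1) p (by omega)
      have h1 := mul_mem hP hP
      have h2 := EE_rel s ν hν (by omega) g h1
      have h3 : (fun A : γ → Finset α => MvPolynomial.eval (phi A) (p ^ 2 *
          (MvPolynomial.C ((2 * (Fintype.card β * Fintype.card ω) : ℕ) : ℝ) *
            MvPolynomial.X (Sum.inl (g, Sum.inr f)) -
            ∑ j : Cli γ α β ω, MvPolynomial.X (Sum.inr ((g, Sum.inr f), j))))) =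
          (2 * Fintype.card ω : ℝ) • ((fun A : γ → Finset α =>
            MvPolynomial.eval (phi A) p) * (fun A : γ → Finset α =>
            MvPolynomial.eval (phi A) p) * fun A => ((A g).card : ℝ) - s) := by
        funext A
        rw [map_mul, map_sub, map_mul, map_sum, MvPolynomial.eval_C, map_pow]
        simp only [MvPolynomial.eval_X]
        rw [load_big]
        simp only [phi, Pi.smul_apply, Pi.mul_apply, smul_eq_mul]
        push_cast
        rw [hsb]
        ring
      exact le_of_eq (by rw [h3, EE_smul, h2, mul_zero])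
  have f_card : ∀ p : Pl γ α β ω, 2 * p.totalDegree + 1 ≤ 2 * t →
      0 ≤ EF ν (p ^ 2 * (MvPolynomial.C (k : ℝ) -
        ∑ i : Fac γ α β, MvPolynomial.X (Sum.inl i))) := by
    intro p hp
    rw [EF_apply]
    have hP := eval_mem (γ := γ) (α := α) (β := β) (ω := ω) (t := t - 1) p (by omega)
    have h1 := mul_mem hP hP
    have h3 : (fun A : γ → Finset α => MvPolynomial.eval (phi A) (p ^ 2 *
          (MvPolynomial.C (k : ℝ) -
            ∑ i : Fac γ α β, MvPolynomial.X (Sum.inl i)))) =
          ∑ g : γ, (-1 : ℝ) • ((fun A : γ → Finset α =>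
            MvPolynomial.eval (phi A) p) * (fun A : γ → Finset α =>
            MvPolynomial.eval (phi A) p) * fun A => ((A g).card : ℝ) - s) := by
      funext A
      rw [map_mul, map_sub, map_sum, MvPolynomial.eval_C, map_pow]
      simp only [MvPolynomial.eval_X]
      rw [count_open, hk, Finset.sum_apply]
      simp only [Pi.smul_apply, Pi.mul_apply, smul_eq_mul]
      rw [← mul_sum, ← mul_sum, sum_sub_distrib, sum_add_distrib, sum_const, sum_const,
        nsmul_eq_mul, nsmul_eq_mul, card_univ]
      ring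
    refine le_of_eq ?_
    rw [h3, EE_sum]
    refine (sum_eq_zero fun g _ => ?_).symm
    rw [EE_smul, EE_rel s ν hν (by omega) g h1, mul_zero]
  let e : PseudoExp (inst γ α β ω L hL) k t :=
    { E := EF ν
      one := f_one
      bool := f_bool
      sq := f_sq
      assign := f_assign
      opened := f_opened
      capacity := f_capacity
      cardinality := f_card }
  refine ⟨e, ?_⟩
  have hv : e.value = ∑ i : Fac γ α β, ∑ j : Cli γ α β ω, dist L (Sum.inr j) (Sum.inl i) *
      EE ν (fun A : γ → Finset α => phi A (Sum.inr (i, j))) := by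
    refine sum_congr rfl fun i _ => sum_congr rfl fun j _ => ?_
    congr 1
    change EF ν (MvPolynomial.X (Sum.inr (i, j)) : Pl γ α β ω) = _
    rw [EF_apply]
    simp only [MvPolynomial.eval_X]
  rw [hv]
  have h1 : ∑ i : Fac γ α β, ∑ j : Cli γ α β ω, dist L (Sum.inr j) (Sum.inl i) *
      EE ν (fun A : γ → Finset α => phi A (Sum.inr (i, j))) =
      EE ν (∑ i : Fac γ α β, ∑ j : Cli γ α β ω, dist L (Sum.inr j) (Sum.inl i) •
        fun A : γ → Finset α => phi A (Sum.inr (i, j))) := by
    rw [EE_sum]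
    refine sum_congr rfl fun i _ => ?_
    rw [EE_sum]
    refine sum_congr rfl fun j _ => ?_
    rw [EE_smul]
  have h2 : (∑ i : Fac γ α β, ∑ j : Cli γ α β ω, dist L (Sum.inr j) (Sum.inl i) •
        fun A : γ → Finset α => phi A (Sum.inr (i, j))) =
      fun _ => (Fintype.card (Cli γ α β ω) : ℝ) := by
    funext A
    rw [Finset.sum_apply]
    simp only [Finset.sum_apply, Pi.smul_apply, smul_eq_mul]
    rw [sum_comm]
    have h3 : ∀ j : Cli γ α β ω, ∑ i : Fac γ α β, dist L (Sum.inr j) (Sum.inl i) *
        phi A (Sum.inr (i, j)) = 1 := by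
      intro j
      have h4 : ∀ i : Fac γ α β, dist L (Sum.inr j) (Sum.inl i) * phi A (Sum.inr (i, j)) =
          if asg A j = i then dist L (Sum.inr j : Fac γ α β ⊕ Cli γ α β ω) (Sum.inl i)
            else 0 := by
        intro i
        simp only [phi]
        split_ifs <;> simp
      simp_rw [h4]
      rw [sum_ite_eq, if_pos (mem_univ _)]
      unfold dist
      rw [if_neg (by simp), if_pos]
      rcases j with ⟨g', ⟨a', f', l⟩ | ⟨f', l⟩⟩
      · simp only [grp, asg]
        split_ifs <;> rfl
      · rfl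
    simp_rw [h3]
    rw [sum_const, nsmul_eq_mul, mul_one, card_univ]
  rw [h1, h2, hconst]

end Pool.Agent.Helper82.SOS
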